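import Pool.Agent.helper11.LK.BI
import Pool.Agent.helper12.LK.UV
import Pool.Agent.helper13.LK.CNT
import Pool.Agent.helper25.LK.QP
import Pool.Agent.helper25.LK.WB
import Pool.Agent.helper25.LK.WM
import Pool.Agent.helper32.LK.ROOT
import Pool.Agent.helper43.LK.RD
import Pool.Agent.helper46.LK.LOW
import Pool.Agent.helper52.LK.INJ
import Pool.Agent.helper52.LK.Z2
import Pool.Agent.helper59.LK.QW
import Pool.Agent.helper59.LK.RA
import Pool.Agent.helper59.LK.RC
import Pool.Agent.helper59.LK.SOL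
import Pool.Agent.helper59.LK.Z1
import Pool.Agent.helper64.LK.BU
import Pool.Agent.helper64.LK.CLS
import Pool.Agent.helper64.LK.PQ
import Pool.Agent.helper64.LK.RB
import Pool.Agent.helper7.LK.Z0
import Pool.Agent.helper71.LK.CSW
import Pool.Agent.helper72.LK.PTS
import Pool.Agent.helper77.LK.PS
import Pool.Agent.helper79.LK.VD
import Pool.Agent.helper82.LK.NI
import Pool.Agent.helper84.LK.MXY
import Pool.Agent.helper89.LK.HYP
import Pool.Agent.helper89.LK.PU
import Pool.Agent.helper89.LK.PW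
import Pool.Agent.helper91.LK.NS
import Pool.Agent.helper97.LK.BAS
import Pool.Agent.helper99.LK.PT
import Pool.Agent.helper99.LK.PV

/-!
# Project lk: (MP_940ffa_an): assembly
-/

namespace Pool.Agent.LK

theorem lkNI : NI_stmt := NI BU

theorem lkINJ : INJ_stmt := INJ (CLS HYP) lkNI (NS BU lkNI) (PS lkNI) (PT lkNI) (PU lkNI)
  (PW lkNI) (PV lkNI) (PQ lkNI)

theorem lkRD : RD_stmt := RD (RC RA RB)

theorem lkQW : QW_stmt := QW

theorem lkCNT : CNT_stmt := CNT

theorem lkMXY : MXY_stmt := MXY LOW (SOL LOW)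

theorem lkWM : WM_stmt := WM lkMXY BI PTS

theorem lkWB : WB_stmt := WB BI BAS lkNI PTS

theorem lkZ2 : Z2_stmt := Z2 (Z1 ROOT lkWM lkWB (Z0 lkINJ lkNI)) LOW (CSW PTS)

theorem lkQP : QP_stmt := QP LOW (CSW PTS) (UV LOW) VD lkZ2

end Pool.Agent.LK
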