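import Mathlib

/-!
# Project lk: (MP_940ffa_an), combinatorial part: definitions

Points `P = (I, J)` stand for monomials `x^I y^J`, `α = (a, 1)`, `β = (1, a)`, `o = (1, 1)`.
`P - o = μ α + ν β`, and `sg a P j = C(1 - μ/2, j) * C(1 - ν, j)`.
-/

open Finset

noncomputable section

namespace Pool.Agent.LK

/-- points and offsets -/
abbrev Pt := ℤ × ℤ

/-- `P + i α + k β` -/
def shift (a : ℤ) (P : Pt) (o : Pt) : Pt := (P.1 + o.1 * a + o.2, P.2 + o.1 + o.2 * a)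

/-- coordinate along `α` -/
def mu (a : ℤ) (P : Pt) : ℚ := ((a : ℚ) * (P.1 - 1) - (P.2 - 1)) / ((a : ℚ) ^ 2 - 1)

/-- coordinate along `β` -/
def nu (a : ℤ) (P : Pt) : ℚ := ((a : ℚ) * (P.2 - 1) - (P.1 - 1)) / ((a : ℚ) ^ 2 - 1)

/-- first upper index -/
def xx (a : ℤ) (P : Pt) : ℚ := 1 - mu a P / 2

/-- second upper index -/
def yy (a : ℤ) (P : Pt) : ℚ := 1 - nu a P

/-- the binomial coefficient `C(x, j)` -/
def ch (x : ℚ) (j : ℕ) : ℚ := (∏ t ∈ range j, (x - t)) / (j.factorial : ℚ)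

/-- the hypergeometric term -/
def sg (a : ℤ) (P : Pt) (j : ℕ) : ℚ := ch (xx a P) j * ch (yy a P) j

/-! ### base points of the classes modulo `ℤ α + ℤ β`; `dl` is `0` or `1`, `a ≥ 11` -/

/-- tiny base points -/
def isS (dl : ℤ) (P : Pt) : Prop :=
  1 ≤ P.1 + P.2 ∧ P.1 + P.2 ≤ 2 + dl ∧ 0 ≤ P.1 ∧ 0 ≤ P.2 ∧ ¬(P.1 = 1 ∧ P.2 = 1)

/-- generic base points -/
def isT (a dl : ℤ) (P : Pt) : Prop :=
  3 + dl ≤ P.1 + P.2 ∧ P.1 + P.2 ≤ a + 3 + dl ∧ 0 ≤ P.1 ∧ P.1 ≤ a - 3 ∧ 0 ≤ P.2 ∧ P.2 ≤ a - 3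

/-- base points with the additional point `P + 2 α - β` -/
def isU (a dl : ℤ) (P : Pt) : Prop := P.2 = a - 2 ∧ 0 ≤ P.1 ∧ P.1 ≤ 5 + dl

/-- base points with the additional point `P - α + 2 β` -/
def isW (a dl : ℤ) (P : Pt) : Prop := P.1 = a - 2 ∧ 0 ≤ P.2 ∧ P.2 ≤ 5 + dl

/-- base points of the classes with five points -/
def isV (a dl : ℤ) (P : Pt) : Prop :=
  (P.1 = 0 ∧ a - 1 ≤ P.2 ∧ P.2 ≤ a + 3 + dl) ∨ (P.2 = a - 1 ∧ 1 ≤ P.1 ∧ P.1 ≤ 4 + dl) ∨
    (P.1 = 1 ∧ P.2 = a)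

/-- base points of the classes at the top level only -/
def isQ (a dl : ℤ) (P : Pt) : Prop :=
  ((P.1 = 0 ∧ a + 4 + dl ≤ P.2 ∧ P.2 ≤ 2 * a - 2) ∨
    (1 ≤ P.1 ∧ P.1 ≤ a - 2 ∧ 0 ≤ P.2 ∧ P.2 ≤ a - 1 ∧ a + 4 + dl ≤ P.1 + P.2)) ∧
    ¬(P.1 = P.2 ∧ 3 * (P.1 - 1) = 2 * (a + 1))

instance (dl : ℤ) (P : Pt) : Decidable (isS dl P) := by unfold isS; infer_instance
instance (a dl : ℤ) (P : Pt) : Decidable (isT a dl P) := by unfold isT; infer_instance
instance (a dl : ℤ) (P : Pt) : Decidable (isU a dl P) := by unfold isU; infer_instance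
instance (a dl : ℤ) (P : Pt) : Decidable (isW a dl P) := by unfold isW; infer_instance
instance (a dl : ℤ) (P : Pt) : Decidable (isV a dl P) := by unfold isV; infer_instance
instance (a dl : ℤ) (P : Pt) : Decidable (isQ a dl P) := by unfold isQ; infer_instance

/-- all base points -/
def isB (a dl : ℤ) (P : Pt) : Prop :=
  isS dl P ∨ isT a dl P ∨ isU a dl P ∨ isW a dl P ∨ isV a dl P ∨ isQ a dl P

instance (a dl : ℤ) (P : Pt) : Decidable (isB a dl P) := by unfold isB; infer_instance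

/-- offsets of the unknowns of type `A` -/
def LA (a dl : ℤ) (P : Pt) : Finset Pt :=
  if isS dl P then {(0, 0), (0, 1), (0, 2), (1, 0), (1, 1)}
  else if isT a dl P then {(0, 0), (0, 1), (1, 0)}
  else if isU a dl P then {(0, 0), (0, 1), (1, 0), (2, -1)}
  else if isW a dl P then {(0, 0), (0, 1), (1, 0), (-1, 2)}
  else if isV a dl P then {(0, 0), (1, -1), (0, 1), (1, 0), (2, -1)}
  else if isQ a dl P then
    {(0, 0)} ∪ (if a - 1 ≤ P.2 then {(1, -1)} else ∅) ∪ (if 2 * a - 2 ≤ P.2 then {(2, -2)} else ∅)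
  else ∅

/-- `(0, 0)` if the base point is interior -/
def L0 (P : Pt) : Finset Pt := if 1 ≤ P.1 ∧ 1 ≤ P.2 then {(0, 0)} else ∅

/-- offsets of the unknowns of type `B` -/
def LB (a dl : ℤ) (P : Pt) : Finset Pt :=
  if isS dl P then {(0, 1), (0, 2), (1, 1)}
  else if isT a dl P ∨ isU a dl P ∨ isW a dl P then L0 P ∪ {(0, 1), (1, 0)}
  else if isV a dl P then {(0, 1), (1, 0), (2, -1)}
  else if isQ a dl P then L0 P ∪ (if a ≤ P.2 then {(1, -1)} else ∅)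
  else ∅

/-- the finite set of base points -/
def BB (a dl : ℤ) : Finset Pt :=
  ((Icc (0 : ℤ) (2 * a + 5)) ×ˢ (Icc (0 : ℤ) (2 * a + 5))).filter (isB a dl)

/-- index set of type `A`: (base point, offset) -/
def UA (a dl : ℤ) : Finset (Pt × Pt) := (BB a dl).biUnion fun P => (LA a dl P).image fun o => (P, o)

/-- index set of type `B`: (base point, offset) -/
def UB (a dl : ℤ) : Finset (Pt × Pt) := (BB a dl).biUnion fun P => (LB a dl P).image fun o => (P, o)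

theorem mem_UA {a dl : ℤ} {u : Pt × Pt} : u ∈ UA a dl ↔ u.1 ∈ BB a dl ∧ u.2 ∈ LA a dl u.1 := by
  simp only [UA, mem_biUnion, mem_image]
  constructor
  · rintro ⟨P, hP, o, ho, rfl⟩
    exact ⟨hP, ho⟩
  · rintro ⟨h1, h2⟩
    exact ⟨u.1, h1, u.2, h2, rfl⟩

theorem mem_UB {a dl : ℤ} {u : Pt × Pt} : u ∈ UB a dl ↔ u.1 ∈ BB a dl ∧ u.2 ∈ LB a dl u.1 := by
  simp only [UB, mem_biUnion, mem_image]
  constructor
  · rintro ⟨P, hP, o, ho, rfl⟩
    exact ⟨hP, ho⟩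
  · rintro ⟨h1, h2⟩
    exact ⟨u.1, h1, u.2, h2, rfl⟩

theorem mem_BB {a dl : ℤ} (ha : 11 ≤ a) (h0 : 0 ≤ dl) (h1 : dl ≤ 1) {P : Pt} :
    P ∈ BB a dl ↔ isB a dl P := by
  rw [BB, mem_filter, mem_product, mem_Icc, mem_Icc]
  constructor
  · exact fun h => h.2
  · intro h
    refine ⟨?_, h⟩
    simp only [isB, isS, isT, isU, isW, isV, isQ] at h
    omega

/-! ### elementary facts -/

theorem den_ne {a : ℤ} (ha : 2 ≤ a) : ((a : ℚ) ^ 2 - 1) ≠ 0 := by
  have h : (2 : ℚ) ≤ a := by exact_mod_cast ha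
  nlinarith

theorem mu_shift {a : ℤ} (ha : 2 ≤ a) (P o : Pt) : mu a (shift a P o) = mu a P + o.1 := by
  have h := den_ne ha
  rw [mu, mu, shift]
  push_cast
  field_simp
  ring

theorem nu_shift {a : ℤ} (ha : 2 ≤ a) (P o : Pt) : nu a (shift a P o) = nu a P + o.2 := by
  have h := den_ne ha
  rw [nu, nu, shift]
  push_cast
  field_simp
  ring

theorem shift_shift (a : ℤ) (P o o' : Pt) : shift a (shift a P o) o' = shift a P (o + o') := by
  simp only [shift, Prod.fst_add, Prod.snd_add, Prod.mk.injEq]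
  constructor <;> ring

theorem shift_zero (a : ℤ) (P : Pt) : shift a P (0, 0) = P := by
  simp [shift]

/-- `P` in terms of its coordinates -/
theorem pt_eq {a : ℤ} (ha : 2 ≤ a) (P : Pt) : (P.1 : ℚ) - 1 = mu a P * a + nu a P ∧
    (P.2 : ℚ) - 1 = mu a P + nu a P * a := by
  have h := den_ne ha
  rw [mu, nu]
  constructor <;> field_simp <;> ring

theorem ch_zero (x : ℚ) : ch x 0 = 1 := by simp [ch]

theorem ch_succ (x : ℚ) (j : ℕ) : ch x (j + 1) * (j + 1) = ch x j * (x - j) := by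
  rw [ch, ch, prod_range_succ, Nat.factorial_succ]
  push_cast
  have h1 : ((j.factorial : ℕ) : ℚ) ≠ 0 := by exact_mod_cast j.factorial_ne_zero
  have h2 : ((j : ℚ) + 1) ≠ 0 := by positivity
  field_simp

theorem ch_sub_one (x : ℚ) (j : ℕ) : ch (x - 1) j * x = ch x j * (x - j) := by
  induction j with
  | zero => simp [ch_zero]
  | succ j ih =>
    have h1 := ch_succ (x - 1) j
    have h2 := ch_succ x j
    have h3 : ((j : ℚ) + 1) ≠ 0 := by positivity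
    apply mul_right_cancel₀ h3
    push_cast
    calc ch (x - 1) (j + 1) * x * (j + 1) = (ch (x - 1) (j + 1) * (j + 1)) * x := by ring
      _ = (ch (x - 1) j * x) * (x - 1 - j) := by rw [h1]; ring
      _ = ch x (j + 1) * (j + 1) * (x - 1 - j) := by rw [ih, h2]
      _ = ch x (j + 1) * (x - (j + 1)) * (j + 1) := by ring

theorem ch_ne_zero {x : ℚ} (hx : ∀ z : ℤ, x ≠ z) (j : ℕ) : ch x j ≠ 0 := by
  rw [ch]
  refine div_ne_zero (prod_ne_zero_iff.2 fun t _ => ?_) (by exact_mod_cast j.factorial_ne_zero)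
  exact sub_ne_zero.2 (by exact_mod_cast hx t)

theorem xx_shift {a : ℤ} (ha : 2 ≤ a) (P o : Pt) : xx a (shift a P o) = xx a P - o.1 / 2 := by
  rw [xx, xx, mu_shift ha]; ring

theorem yy_shift {a : ℤ} (ha : 2 ≤ a) (P o : Pt) : yy a (shift a P o) = yy a P - o.2 := by
  rw [yy, yy, nu_shift ha]; ring

/-- shift by `β` -/
theorem sg_beta {a : ℤ} (ha : 2 ≤ a) (P : Pt) (j : ℕ) :
    sg a (shift a P (0, 1)) j * yy a P = sg a P j * (yy a P - j) := by
  have h1 := ch_sub_one (yy a P) j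
  rw [sg, sg, xx_shift ha, yy_shift ha]
  simp only [Int.cast_zero, zero_div, sub_zero, Int.cast_one]
  linear_combination ch (xx a P) j * h1

/-- shift by `2 α` -/
theorem sg_alpha2 {a : ℤ} (ha : 2 ≤ a) (P : Pt) (j : ℕ) :
    sg a (shift a P (2, 0)) j * xx a P = sg a P j * (xx a P - j) := by
  have h1 := ch_sub_one (xx a P) j
  rw [sg, sg, xx_shift ha, yy_shift ha]
  simp only [Int.cast_zero, sub_zero]
  have e : xx a P - ((2 : ℤ) : ℚ) / 2 = xx a P - 1 := by norm_num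
  rw [e]
  linear_combination ch (yy a P) j * h1

end Pool.Agent.LK
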