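import Pool.Agent.helper96.LK.DefsH

/-!
# Project lk: (MP_940ffa_an, `Ĥ_n ≥ n² + 3n - 50`), combinatorial part: statements

RULES.  File `Pool/Agent/<seat>/LK/XX.lean`, `import Pool.Agent.helper96.LK.SpecH`,
`namespace Pool.Agent.LK`, `open Finset Filter Polynomial`, theorem `XX (h : YY_stmt) ... : XX_stmt`
(any OTHER statement of this file may be a hypothesis, except circularly), auxiliary lemmas prefixed
`XX_`.  All elementary facts about `mu, nu, xx, yy, ch, sg, shift` needed below are proved in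
`DefsH.lean` (`xx_shift`, `yy_shift`, `pt_eq`, `ch_sub_one`, `ch_ne_zero`, `sg_beta`, `sg_alpha2`,
`mem_UA`, `mem_UB`, `mem_BB`, ...).  Notation: `μ = mu a P`, `ν = nu a P`, `x = xx a P = 1 - μ/2`,
`y = yy a P = 1 - ν`.
-/

open Finset Filter

namespace Pool.Agent.LK

/-- two pairs of parameters give similar hypergeometric terms -/
def Sim (x y x' y' : ℚ) : Prop :=
  ((∃ z : ℤ, x - x' = z) ∧ ∃ z : ℤ, y - y' = z) ∨ ((∃ z : ℤ, x - y' = z) ∧ ∃ z : ℤ, y - x' = z)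

/-- **HYP** pairwise non-similar hypergeometric terms are linearly independent over the polynomials.
Write `h i j = ch (x i) j * ch (y i) j`, nonzero for all `j` (`ch_ne_zero`), with
`h i (j+1) * (j+1)^2 = h i j * (x i - j) * (y i - j)` (`ch_succ`).
Proof.  Suppose some `p i ≠ 0`; take a nonzero solution `p` with the smallest number `m` of nonzero
entries.  `m ≥ 2` since `m = 1` gives `(p i).eval j = 0` for all large `j`.  Fix `i₀` with
`p i₀ ≠ 0`.  Write the relation at `j + 1`, multiply by `(j+1)^2`, use the recursion: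
`Σ_i p i (j+1) (x i - j)(y i - j) h i j = 0`; multiply by `p i₀ (j)` and subtract
`p i₀ (j+1) (x i₀ - j)(y i₀ - j)` times the relation at `j`: a relation with polynomial coefficients
`q i = p i₀ * (p i ∘ (X+1)) * (x i - X)(y i - X) - (p i₀ ∘ (X+1)) * (x i₀ - X)(y i₀ - X) * p i`,
`q i₀ = 0` and `q i = 0` whenever `p i = 0`: fewer nonzero entries, so by minimality all `q i = 0`.
Take `i ≠ i₀` with `p i ≠ 0`: the identity of nonzero polynomials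
`p i₀ * (p i ∘ (X+1)) * (X - x i)(X - y i) = (p i₀ ∘ (X+1)) * p i * (X - x i₀)(X - y i₀)`.
For `c : ℂ` let `N c P` be the number of roots (with multiplicity) of `P` in `c + ℤ`
(`(P.roots.filter ..).card`).  `N c` is additive and `N c (P ∘ (X+1)) = N c P`.  Hence
`#{x i, y i} ∩ (c + ℤ) = #{x i₀, y i₀} ∩ (c + ℤ)` (as multisets of two elements) for every `c`, in
particular for `c = x i, y i, x i₀, y i₀`, so `Sim (x i) (y i) (x i₀) (y i₀)`, contradiction. -/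
def HYP_stmt : Prop :=
  ∀ (ι : Type) [Fintype ι] (x y : ι → ℚ), (∀ i, ∀ z : ℤ, x i ≠ z) → (∀ i, ∀ z : ℤ, y i ≠ z) →
    (∀ i k, i ≠ k → ¬Sim (x i) (y i) (x k) (y k)) → ∀ p : ι → Polynomial ℂ,
    (∀ᶠ j : ℕ in atTop, ∑ i, (p i).eval (j : ℂ) * ((ch (x i) j * ch (y i) j : ℚ) : ℂ) = 0) →
    ∀ i, p i = 0

/-- **CLS** splitting of a relation into similarity classes.
Proof.  In a class `c i = v` choose a representative `r`.  For `c i = c r`, `x i = x r - n` with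
`n : ℤ`; by `ch_sub_one` (iterated, in both directions) there are polynomials `U i ≠ 0`, `V i ≠ 0`
(products of `n` or `-n` linear factors, nonvanishing at all large naturals) such that
`V i (j) * ch (x i) j * ch (y i) j = U i (j) * ch (x r) j * ch (y r) j` for all `j`.  Multiply the
relation by the product of all `V i` and group: a relation `Σ_v P v (j) h_v j = 0` over the set of
classes with polynomial coefficients `P v`; `HYP` gives `P v = 0`, that is (divide by the `V`'s,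
which do not vanish for large `j`) the claim. -/
def CLS_stmt : Prop :=
  ∀ (ι : Type) [Fintype ι] (κ : Type) [DecidableEq κ] (c : ι → κ) (x y : ι → ℚ),
    (∀ i, ∀ z : ℤ, x i ≠ z) → (∀ i, ∀ z : ℤ, y i ≠ z) →
    (∀ i k, c i = c k → (∃ z : ℤ, x i - x k = z) ∧ ∃ z : ℤ, y i - y k = z) →
    (∀ i k, c i ≠ c k → ¬Sim (x i) (y i) (x k) (y k)) → ∀ p : ι → Polynomial ℂ,
    (∀ᶠ j : ℕ in atTop, ∑ i, (p i).eval (j : ℂ) * ((ch (x i) j * ch (y i) j : ℚ) : ℂ) = 0) →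
    ∀ v, ∀ᶠ j : ℕ in atTop, ∑ i with c i = v,
      (p i).eval (j : ℂ) * ((ch (x i) j * ch (y i) j : ℚ) : ℂ) = 0

/-- the region containing the base points, `(1,1)` and the excluded point -/
def Reg (a : ℤ) (P : Pt) : Prop :=
  (0 ≤ P.1 ∧ P.1 ≤ a - 2 ∧ 0 ≤ P.2 ∧ P.2 ≤ a - 1 ∧ 1 ≤ P.1 + P.2) ∨
    (P.1 = 0 ∧ 1 ≤ P.2 ∧ P.2 ≤ 2 * a - 2) ∨ (P.1 = 1 ∧ P.2 = a)

/-- **BU** uniqueness of base points.  `u = P'.1 - P.1 = i a + k`, `v = P'.2 - P.2 = i + k a`,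
`u + v = (i + k)(a + 1)`, `u - v = (i - k)(a - 1)`.  If both points are in the first set:
`|u + v| ≤ 2a - 3`, `|u - v| ≤ 2a - 3`, so `i + k, i - k ∈ {-1, 0, 1}`, and they have the same
parity: `(i, k) = (0, 0)` or one of `(±1, 0)`, `(0, ±1)`; `i = ±1, k = 0`: `|u| = a`; `k = ±1`:
`|v| = a`: impossible.  The other cases are similar: bound `i` and `k` first
(`(a^2 - 1) i = a u - v`, `(a^2 - 1) k = a v - u`: `|i| ≤ 1`, `|k| ≤ 2`), then `omega` after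
`interval_cases`. -/
def BU_stmt : Prop :=
  ∀ a : ℤ, 11 ≤ a → ∀ P P' o : Pt, Reg a P → Reg a P' → P' = shift a P o → o = 0

/-- **NI** the parameters are never integers.  If `xx a (shift a P o) = z`, then
`μ = mu a P` is an integer `m` (`xx_shift`), and then `ν = nu a P` is an integer: `pt_eq`:
`ν = P.1 - 1 - m a`; so `P = shift a (1,1) (m, ν)` and `BU` (with `(1,1)`, `P` in `Reg`; every base
point is in `Reg`, `mem_BB`, omega) gives `P = (1,1)`, which is not a base point.  Similarly for `yy`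
(`μ = P.2 - 1 - ν a`). -/
def NI_stmt : Prop :=
  ∀ a dl : ℤ, 11 ≤ a → 0 ≤ dl → dl ≤ 1 → ∀ P ∈ BB a dl, ∀ (o : Pt) (z : ℤ),
    xx a (shift a P o) ≠ z ∧ yy a (shift a P o) ≠ z

/-- **NS** different classes are not similar.  Let `(μ, ν)`, `(μ', ν')` be the coordinates of
`Q = shift a P o`, `Q' = shift a P' o'`.
First alternative of `Sim`: `(μ - μ')/2 ∈ ℤ`, `ν - ν' ∈ ℤ`; then `P' = shift a P (m, n)` with
`m, n ∈ ℤ` (`pt_eq`, `mu_shift`), `BU` gives `P = P'`, and `μ - μ' = o.1 - o'.1` is even.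
Second alternative: `1 - μ/2 - (1 - ν') ∈ ℤ`, `1 - ν - (1 - μ'/2) ∈ ℤ`, i.e. `2 ν' - μ ∈ 2ℤ`,
`2 ν - μ' ∈ 2ℤ`.  By `pt_eq` for `Q`: `a μ + ν ∈ ℤ`, `μ + a ν ∈ ℤ`; for `Q'`: `a μ' + ν' ∈ ℤ`,
`μ' + a ν' ∈ ℤ`.  Put `μ' = 2 ν - 2 s`, `2 ν' = μ + 2 t`: `2(a μ' + ν') = 4 a ν + μ + even·`, so
`4 a ν + μ ∈ ℤ`, and with `μ + a ν ∈ ℤ`: `3 μ ∈ ℤ` (`4(μ + aν) - (4aν + μ) = 3μ`), `3 ν ∈ ℤ`
similarly (`ν = (aμ + ν) - aμ`).  Write `μ = m/3`, `ν = n/3` with `m, n ∈ ℤ`; `a m + n` and `m + a n` are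
divisible by `3`, `m` is not (`NI`: `μ` is not an integer).  So `3 ∤ a`.
* `a ≡ 1 (3)`: `n ≡ -m`; `μ' = 2ν - 2s ≡ 2n/3`, `2n ≡ -2m ≡ m (3)`: `μ' - μ ∈ ℤ`; and `2ν' = μ + 2t`,
  `3 ν' ∈ ℤ` gives `ν' ≡ -2·ν'·... `: `ν' = 3ν' - 2ν' ≡ -μ ≡ ν` mod `ℤ`.  Hence `P' = shift a P (m', n')`,
  `BU`: `P = P'`; and `μ' - μ = 2ν - 2s - 2ν' + 2t = 2(ν - ν') + even` with `ν - ν' ∈ ℤ`: even.
* `a ≡ 2 (3)`: `n ≡ m`, and `μ' ≡ 2μ ≡ -μ`, `ν' ≡ -μ ≡ -ν` mod `ℤ`.  One of the classes is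
  `(μ, ν) ≡ (2/3, 2/3)`; say (by symmetry) that of `P`: then `P` and the point `E = (t, t)`,
  `t = 1 + 2(a+1)/3` (which is in `Reg`, as `a ≥ 11`, `a ≡ 2`) differ by an element of the lattice,
  so `P = E` by `BU`; but `E` is excluded in `isQ` and is not in the other sets (its coordinates are
  at most `a - 2`, its sum is `> a + 3 + dl`). -/
def NS_stmt : Prop :=
  ∀ a dl : ℤ, 11 ≤ a → 0 ≤ dl → dl ≤ 1 → ∀ P ∈ BB a dl, ∀ P' ∈ BB a dl, ∀ o o' : Pt,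
    Sim (xx a (shift a P o)) (yy a (shift a P o)) (xx a (shift a P' o')) (yy a (shift a P' o')) →
    P = P' ∧ (2 : ℤ) ∣ o.1 - o'.1

/-- the relation inside the class of the base point `P` and the parity `e` of the first offset -/
def Rel (a dl : ℤ) (A B : Pt → ℂ) (P : Pt) (e : ℤ) (j : ℕ) : ℂ :=
  ∑ o ∈ LA a dl P with o.1 % 2 = e, A o * ((j * sg a (shift a P o) j : ℚ) : ℂ) +
    ∑ o ∈ LB a dl P with o.1 % 2 = e, B o * ((sg a (shift a P (o.1, o.2 + 2)) j : ℚ) : ℂ) -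
    ∑ o ∈ LB a dl P with (o.1 + 1) % 2 = e, B o * ((sg a (shift a P (o.1 + 1, o.2)) j : ℚ) : ℂ)

/-- all coefficients of the class vanish -/
def Van (a dl : ℤ) (A B : Pt → ℂ) (P : Pt) : Prop :=
  (∀ o ∈ LA a dl P, A o = 0) ∧ ∀ o ∈ LB a dl P, B o = 0

/-- both relations of the class hold for large `j` -/
def Rels (a dl : ℤ) (A B : Pt → ℂ) (P : Pt) : Prop :=
  (∀ᶠ j : ℕ in atTop, Rel a dl A B P 0 j = 0) ∧ ∀ᶠ j : ℕ in atTop, Rel a dl A B P 1 j = 0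

/-- **PS** (pattern of `isS`).  Let `s k = sg(shift P (0,k))/sg P`, a polynomial of degree `k` in `j`
(`sg_beta`): `s 1 = (y-j)/y`, `s 2 = (y-j)(y-1-j)/(y(y-1))`, ...; the same `s k` for
`sg(shift P (1,k))/sg(shift P (1,0))`; `sg(shift P (2,k)) = s k * (x-j)/x * sg P`.  The relations are
(parity 0) `j(A00 + A01 s1 + A02 s2) + B01 s3 + B02 s4 - B11 s1 (x-j)/x = 0`,
(parity 1) `j(A10 + A11 s1) + B11 s3 - B01 s1 - B02 s2 = 0`
for large `j`, hence as polynomials.  Degree 4 in the first: `B02 = 0`; `j = 0` in the first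
(`s k (0) = 1`): `B01 = B11`; degree 3 in the second: `B11 = 0`.  Then all `A` vanish by degrees.
(`x, y` are not integers: `NI` with `o = 0`.) -/
def PS_stmt : Prop :=
  ∀ a dl : ℤ, 11 ≤ a → 0 ≤ dl → dl ≤ 1 → ∀ P ∈ BB a dl, isS dl P → ∀ A B : Pt → ℂ,
    Rels a dl A B P → Van a dl A B P

/-- **PT** (pattern of `isT`; `B00 = 0` if `P` is not interior).
(parity 0) `j(A00 + A01 s1) + B00 s2 + B01 s3 - B10 (x-j)/x = 0`,
(parity 1) `j A10 + B10 s2 - B00 - B01 s1 = 0`.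
Degree 3: `B01 = 0`; `j = 0`: `B00 = B10`; degree 2 in parity 1: `B10 = 0`; then the `A`. -/
def PT_stmt : Prop :=
  ∀ a dl : ℤ, 11 ≤ a → 0 ≤ dl → dl ≤ 1 → ∀ P ∈ BB a dl, isT a dl P → ∀ A B : Pt → ℂ,
    Rels a dl A B P → Van a dl A B P

/-- **PU** (pattern of `isU`): as `PT` with one more term in parity 0:
`j A' (x-j)/x * (y+1)/(y+1-j)`, `A' = A (2,-1)`.  Multiply by `(y + 1 - j)`, a polynomial identity;
at `j = y + 1`: `(y+1)^2 A' (x-y-1)/x = 0`, and `x ≠ y + 1`: with `p = P.1 - 1`, `q = P.2 - 1 = a - 3`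
`2 (a^2-1) (x - y - 1) = 2(aq - p) - (ap - q) - 2(a^2-1) = -5a - 1 - (a+2) p`, not zero for `p ≥ -1`.
So `A' = 0`; continue as in `PT` (isU and isT are disjoint). -/
def PU_stmt : Prop :=
  ∀ a dl : ℤ, 11 ≤ a → 0 ≤ dl → dl ≤ 1 → ∀ P ∈ BB a dl, isU a dl P → ∀ A B : Pt → ℂ,
    Rels a dl A B P → Van a dl A B P

/-- **PW** (pattern of `isW`): as `PT` with one more term in parity 1: `x₁ = xx a (shift a P (1,0)) =
x - 1/2`, `sg(shift P (-1,2)) = s2 * (x₁+1)/(x₁+1-j) * sg(shift P (1,0))`: the term is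
`j A' s2 (x₁+1)/(x₁+1-j)`, `A' = A (-1,2)`.  At `j = x₁ + 1` (after multiplication):
`A' (x₁+1)^2 s2(x₁+1) = 0`, `s2(x₁+1) = (y-x₁-1)(y-x₁-2)/(y(y-1)) ≠ 0`: with `p = P.1 - 1 = a - 3`,
`q = P.2 - 1 ∈ [-1, 4+dl]`: `2(a^2-1)(y - x₁ - 1) = (ap-q) - (a^2-1) - 2(aq-p) = -a - 5 - q(2a+1)` and
`2(a^2-1)(y-x₁-2)` is that minus `2(a^2-1)`: both nonzero (`q = -1`: `a - 4`, `a - 2 - 2a^2`). -/
def PW_stmt : Prop :=
  ∀ a dl : ℤ, 11 ≤ a → 0 ≤ dl → dl ≤ 1 → ∀ P ∈ BB a dl, isW a dl P → ∀ A B : Pt → ℂ,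
    Rels a dl A B P → Van a dl A B P

/-- **PV** (pattern of `isV`).  With `c = A (1,-1)`, `A' = A (2,-1)`, `B' = B (2,-1)`,
`r = (x-j)/x`, `t = (y+1)/(y+1-j)`, `x₁ = x - 1/2`, `r₁ = (x₁-j)/x₁`:
(parity 0) `j(A00 + A01 s1 + A' r t) + B01 s3 + B' s1 r - B10 r = 0`,
(parity 1) `j(c t + A10) + B10 s2 - B01 s1 - B' r₁ t = 0`.
First: multiply by `(y+1-j)`, at `j = y + 1`: `A' = 0` (`x ≠ y + 1`, see below); then degree 3:
`B01 = 0`; `j = 0`: `B' = B10`; second: multiply by `(y+1-j)`: degree 3: `B10 = 0`; so all `B`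
vanish, and `j(c t + A10) = 0` gives `c = A10 = 0`, `A00 + A01 s1 = 0` gives `A00 = A01 = 0`.
`x ≠ y + 1`: `2(a^2-1)(x-y-1) = 2(aq-p) - (ap-q) - 2(a^2-1)`, `p = P.1 - 1`, `q = P.2 - 1`:
for `P.1 = 0` it is `q(2a+1) + a + 4 - 2a^2`, zero only if `(2a+1)(a-1-q) = 3`: no;
for `P.2 = a-1`: `-3a - (a+2)p < 0` (`p ≥ 0`); for `(1,a)`: `1 - a`. -/
def PV_stmt : Prop :=
  ∀ a dl : ℤ, 11 ≤ a → 0 ≤ dl → dl ≤ 1 → ∀ P ∈ BB a dl, isV a dl P → ∀ A B : Pt → ℂ,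
    Rels a dl A B P → Van a dl A B P

/-- **PQ** (pattern of `isQ`).  Terms, with `r, t, x₁, r₁` as in `PV` and
`t2 = (y+1)(y+2)/((y+1-j)(y+2-j))` (`shift (2,-2)`: `r t2`):
(parity 0) `j(A00 + A2 r t2) + B00 s2 - B1 r t = 0`, (parity 1) `j c t + B1 s1 t·... - B00 = 0`,
precisely `shift (1,-1)`: `t` and `shift (1, 1) = s1` relative to `shift (1,0)`:
`j c t + B1 s1 - B00 = 0`; `B00` is present only if `P` is interior, `c = A(1,-1)` only if
`a-1 ≤ P.2`, `B1 = B(1,-1)` only if `a ≤ P.2` (then `P.1 = 0`, so `B00` is absent), `A2 = A(2,-2)`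
only if `P.2 = 2a-2`.  Case `P.1 ≥ 1`: parity 1: `j c t = B00`; multiply by `(y+1-j)`: at `j = 0`:
`B00 = 0`, then `c = 0`, `A00 = 0`.  Case `P.1 = 0`: `j c t + B1 s1 = 0`: at `j = 0`: `B1 = 0`,
`c = 0`; then `A00 + A2 r t2 = 0`: degree (multiply by `(y+1-j)(y+2-j)`): `A00 = 0`, `A2 = 0`. -/
def PQ_stmt : Prop :=
  ∀ a dl : ℤ, 11 ≤ a → 0 ≤ dl → dl ≤ 1 → ∀ P ∈ BB a dl, isQ a dl P → ∀ A B : Pt → ℂ,
    Rels a dl A B P → Van a dl A B P

/-- **INJ** the main independence statement.  Proof: index type `ι = UA ⊕ (UB ⊕ UB)` (subtypes), with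
points `shift a P o`, `shift a P (o.1, o.2+2)`, `shift a P (o.1+1, o.2)` and polynomial coefficients
`A u * X`, `B u`, `-B u` (constants), label `(P, o.1 % 2)`, `(P, o.1 % 2)`, `(P, (o.1+1) % 2)`.
`CLS` applies: non-integrality `NI`; equal labels: same `P`, offsets differ by `(even, integer)`
(`xx_shift`, `yy_shift`); different labels: `NS`.  The class sums for the labels `(P, 0)`, `(P, 1)`
are `Rel a dl (A (P, ·)) (B (P, ·)) P 0 j` and `... 1 j`; apply `PS, PT, PU, PW, PV, PQ`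
(`mem_BB`, `isB`). -/
def INJ_stmt : Prop :=
  ∀ a dl : ℤ, 11 ≤ a → 0 ≤ dl → dl ≤ 1 → ∀ A B : Pt × Pt → ℂ,
    (∀ᶠ j : ℕ in atTop,
      ∑ u ∈ UA a dl, A u * ((j * sg a (shift a u.1 u.2) j : ℚ) : ℂ) +
      ∑ u ∈ UB a dl, B u * ((sg a (shift a u.1 (u.2.1, u.2.2 + 2)) j -
        sg a (shift a u.1 (u.2.1 + 1, u.2.2)) j : ℚ) : ℂ) = 0) →
    (∀ u ∈ UA a dl, A u = 0) ∧ ∀ u ∈ UB a dl, B u = 0

/-- **PTS** the points of the index sets: nonnegative coordinates, sum between `1` and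
`2a + 4 + dl`, interior for type `B`.  Case analysis and omega (products `o.1 * a` with explicit
`o.1`). -/
def PTS_stmt : Prop :=
  ∀ a dl : ℤ, 11 ≤ a → 0 ≤ dl → dl ≤ 1 →
    (∀ u ∈ UA a dl, 0 ≤ (shift a u.1 u.2).1 ∧ 0 ≤ (shift a u.1 u.2).2 ∧
      1 ≤ (shift a u.1 u.2).1 + (shift a u.1 u.2).2 ∧
      (shift a u.1 u.2).1 + (shift a u.1 u.2).2 ≤ 2 * a + 4 + dl) ∧
    (∀ u ∈ UB a dl, 1 ≤ (shift a u.1 u.2).1 ∧ 1 ≤ (shift a u.1 u.2).2 ∧
      (shift a u.1 u.2).1 + (shift a u.1 u.2).2 ≤ 2 * a + 4 + dl)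

/-- **CNT** the number of unknowns (exact loss: `34 + 16 dl`, plus `2` if `a ≡ 2 mod 3`).
With `D = 2a + 4 + dl`, the triangle `T = {(I,J) : I, J ≥ 0, 1 ≤ I + J ≤ D}` has
`(D+1)(D+2)/2 - 1` points and its interior `{I, J ≥ 1, I + J ≤ D}` has `D(D-1)/2`; the sum is
`D(D+1)`.  Covering proof: every `Q ∈ T` outside a list of exceptional points is `shift a P o` with
`P ∈ BB`, `o ∈ LA P`, and every interior `Q` outside a second list is `shift a P o` with `o ∈ LB P`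
(so `card UA ≥ card T - #list`, ...).  Exceptional for `A`: `(1,1)`, `(a+1,2)`, `(2,a+1)`,
`(2a+1,3)`, `(a+2,a+2)`, `(3,2a+1)`, the excluded point, and `P + 2α = (P.1+2a, P.2+2)` for `isS P`
(`4 + 4 dl` points).  Exceptional for `B`: the same points, and in addition `P + α` for `isS P`, `P` for
`isS P` interior (`2 dl` points), and the interior points among `P`, `P + (a-1, 1-a)` for `isV P`
(`10 + 2 dl` points in all).  Base point of `Q = (I, J)`: if `Q` is a base, itself; otherwise one of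
`Q - α`, `Q - β`, `Q - 2β`, `Q - α - β`, `Q - (a-1, 1-a)`, `Q - 2(a-1,1-a)`, `Q - 2α + β`,
`Q + α - 2β`.  (Direct summation of `card (LA) + card (LB)` over the six kinds is possible too.) -/
def CNT_stmt : Prop :=
  ∀ a dl : ℕ, 11 ≤ a → dl ≤ 1 →
    (2 * a + 4 + dl) * (2 * a + 5 + dl) ≤ (UA (a : ℤ) dl).card + (UB (a : ℤ) dl).card + 36 + 16 * dl

end Pool.Agent.LK
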