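import Pool.Agent.helper59.LD.Real2
import Pool.Agent.helper96.LK.SpecH

/-!
# Project lk: (MP_940ffa_an), analytic part: definitions

`x = 1 + (a X₀ - X₁)/Δ`, `y = 1 + (a X₁ - X₀)/Δ`, `Δ = a² - 1`: then `a (x - 1) + (y - 1) = X₀`,
`(x - 1) + a (y - 1) = X₁`.  `z = x^a y`, `w = x y^a`, `P₀ = z - 1`, `P₁ = w - 1`.
-/

open PowerSeries Filter

set_option linter.unusedSectionVars false

noncomputable section

namespace Pool.Agent.LK

open Pool.Agent.helper59.LC Pool.Agent.helper59.LD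

section defs
variable (A : Type) [CommRing A] [Algebra ℚ A]

/-- the coordinate `x` -/
def xP (a : ℕ) : MvPolynomial (Fin 2) A :=
  1 + MvPolynomial.C (qc A (1 / ((a : ℚ) ^ 2 - 1))) *
    (MvPolynomial.C (a : A) * MvPolynomial.X 0 - MvPolynomial.X 1)

/-- the coordinate `y` -/
def yP (a : ℕ) : MvPolynomial (Fin 2) A :=
  1 + MvPolynomial.C (qc A (1 / ((a : ℚ) ^ 2 - 1))) *
    (MvPolynomial.C (a : A) * MvPolynomial.X 1 - MvPolynomial.X 0)

/-- nonlinear parts of the map `(x^a y - 1, x y^a - 1)` -/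
def pT (a : ℕ) (i : Fin 2) : MvPolynomial (Fin 2) A :=
  if i = 0 then xP A a ^ a * yP A a - 1 - MvPolynomial.X 0
  else xP A a * yP A a ^ a - 1 - MvPolynomial.X 1

/-- the common factor (the Jacobian) -/
def den (a : ℕ) : MvPolynomial (Fin 2) A := (xP A a * yP A a) ^ a

/-- the field `x^i y^j ∂_x` -/
def fx (a i j : ℕ) (t : Fin 2) : MvPolynomial (Fin 2) A :=
  xP A a ^ i * yP A a ^ j * (if t = 0 then MvPolynomial.C (a : A) else 1)

/-- the field `x^i y^j ∂_y` -/
def fy (a i j : ℕ) (t : Fin 2) : MvPolynomial (Fin 2) A :=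
  xP A a ^ i * yP A a ^ j * (if t = 0 then 1 else MvPolynomial.C (a : A))

/-- linear combination of `x^I y^(J-1) ∂_x` and `x^(I-1) y^J ∂_y` (`Q = (I, J)`) -/
def fc (a : ℕ) (c1 c2 : ℚ) (Q : Pt) (t : Fin 2) : MvPolynomial (Fin 2) A :=
  MvPolynomial.C (qc A c1) * fx A a Q.1.toNat (Q.2 - 1).toNat t +
    MvPolynomial.C (qc A c2) * fy A a (Q.1 - 1).toNat Q.2.toNat t

/-- the perturbation of type `A` at the point `Q` -/
def TA (a : ℕ) (Q : Pt) (t : Fin 2) : MvPolynomial (Fin 2) A :=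
  if 1 ≤ Q.1 ∧ 1 ≤ Q.2 then
    fc A a ((a : ℚ) / ((a : ℚ) ^ 2 - 1)) (-1 / ((a : ℚ) ^ 2 - 1)) Q t
  else if 1 ≤ Q.2 then fx A a 0 (Q.2 - 1).toNat t else fy A a (Q.1 - 1).toNat 0 t

/-- the perturbation of type `B` at the interior point `Q` -/
def TB (a : ℕ) (Q : Pt) (t : Fin 2) : MvPolynomial (Fin 2) A :=
  fc A a (((a : ℚ) * (1 - nu a Q) + (2 - mu a Q)) / ((a : ℚ) ^ 2 - 1))
    ((-(1 - nu a Q) - (a : ℚ) * (2 - mu a Q)) / ((a : ℚ) ^ 2 - 1)) Q t

/-- the index type of the family -/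
abbrev Ix (a dl : ℕ) : Type :=
  Option ({u // u ∈ UA (a : ℤ) (dl : ℤ)} ⊕ {u // u ∈ UB (a : ℤ) (dl : ℤ)})

/-- the family of perturbations -/
def hh (a dl : ℕ) (i : Ix a dl) (t : Fin 2) : MvPolynomial (Fin 2) A :=
  match i with
  | none => fx A a 1 0 t
  | some (Sum.inl u) => TA A a (shift a u.1.1 u.1.2) t
  | some (Sum.inr u) => TB A a (shift a u.1.1 u.1.2) t

variable {A}

/-- the field `F_e = X + X² g`, `F_e(q) = (1 + q)(q + (1 - e)/2 q²)` -/
def gq (e : A) : Polynomial A :=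
  Polynomial.C (qc A (3 / 2) - qc A (1 / 2) * e) +
    Polynomial.C (qc A (1 / 2) - qc A (1 / 2) * e) * Polynomial.X

/-- the pair of fields -/
def gT (e e' : A) (i : Fin 2) : Polynomial A := if i = 0 then gq e else gq e'

/-- `1 - z² + e (1 - z)²` -/
def fh (e : A) (z : MvPolynomial (Fin 2) A) : MvPolynomial (Fin 2) A :=
  1 - z ^ 2 + MvPolynomial.C e * (1 - z) ^ 2

/-- the pulled back field divided by `den` -/
def VV (a : ℕ) (e e' : A) : MvPolynomial (Fin 2) A :=
  MvPolynomial.C (qc A (-1 / (2 * ((a : ℚ) ^ 2 - 1)))) *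
    ((MvPolynomial.C ((a : A) ^ 2) * xP A a - yP A a) * fh e (xP A a ^ a * yP A a) +
      MvPolynomial.C (a : A) * (xP A a - yP A a) * fh e' (xP A a * yP A a ^ a))

/-- the integer powers of an `m`-th root of `1 + psi (gq e)` -/
structure Rt (m : ℕ) (e : A) where
  /-- the powers -/
  z : ℤ → A⟦X⟧
  zero : z 0 = 1
  add : ∀ k l, z (k + l) = z k * z l
  top : z m = 1 + psi (gq e)
  c0 : ∀ k, coeff 0 (z k) = 1

/-- `z^(k/m) z / ψ'` -/
def bs {m : ℕ} {e : A} (r : Rt m e) (k : ℤ) : A⟦X⟧ := r.z (k + m) * rec' (psi (gq e))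

end defs

section map
variable {A B : Type} [CommRing A] [Algebra ℚ A] [CommRing B] [Algebra ℚ B] (f : A →+* B)

theorem xP_map (a : ℕ) : MvPolynomial.map f (xP A a) = xP B a := by
  simp only [xP, map_add, map_one, map_mul, map_sub, MvPolynomial.map_C, MvPolynomial.map_X,
    map_qc, map_natCast]

theorem yP_map (a : ℕ) : MvPolynomial.map f (yP A a) = yP B a := by
  simp only [yP, map_add, map_one, map_mul, map_sub, MvPolynomial.map_C, MvPolynomial.map_X,
    map_qc, map_natCast]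

theorem pT_map (a : ℕ) (i : Fin 2) : MvPolynomial.map f (pT A a i) = pT B a i := by
  rw [pT, pT]
  split_ifs <;>
  simp only [map_sub, map_one, map_mul, map_pow, MvPolynomial.map_X, xP_map, yP_map]

theorem den_map (a : ℕ) : MvPolynomial.map f (den A a) = den B a := by
  simp only [den, map_mul, map_pow, xP_map, yP_map]

theorem fx_map (a i j : ℕ) (t : Fin 2) : MvPolynomial.map f (fx A a i j t) = fx B a i j t := by
  rw [fx, fx]
  split_ifs <;>
  simp only [map_one, map_mul, map_pow, MvPolynomial.map_C, map_natCast, xP_map, yP_map]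

theorem fy_map (a i j : ℕ) (t : Fin 2) : MvPolynomial.map f (fy A a i j t) = fy B a i j t := by
  rw [fy, fy]
  split_ifs <;>
  simp only [map_one, map_mul, map_pow, MvPolynomial.map_C, map_natCast, xP_map, yP_map]

theorem fc_map (a : ℕ) (c1 c2 : ℚ) (Q : Pt) (t : Fin 2) :
    MvPolynomial.map f (fc A a c1 c2 Q t) = fc B a c1 c2 Q t := by
  simp only [fc, map_add, map_mul, MvPolynomial.map_C, map_qc, fx_map, fy_map]

theorem TA_map (a : ℕ) (Q : Pt) (t : Fin 2) :
    MvPolynomial.map f (TA A a Q t) = TA B a Q t := by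
  rw [TA, TA]
  split_ifs
  · exact fc_map f _ _ _ _ _
  · exact fx_map f _ _ _ _
  · exact fy_map f _ _ _ _

theorem TB_map (a : ℕ) (Q : Pt) (t : Fin 2) :
    MvPolynomial.map f (TB A a Q t) = TB B a Q t := fc_map f _ _ _ _ _

theorem hh_map (a dl : ℕ) (i : Ix a dl) (t : Fin 2) :
    MvPolynomial.map f (hh A a dl i t) = hh B a dl i t := by
  rcases i with _ | u | u
  · exact fx_map f _ _ _ _
  · exact TA_map f _ _ _
  · exact TB_map f _ _ _

theorem gq_map (e : A) : (gq e).map f = gq (f e) := by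
  have h : ∀ q : ℚ, f (qc A q) = qc B q := fun q => map_qc f q
  rw [gq, gq, Polynomial.map_add, Polynomial.map_mul, Polynomial.map_C, Polynomial.map_C,
    Polynomial.map_X, map_sub f, map_mul f, map_sub f, map_mul f, h, h]

theorem gT_map (e e' : A) (i : Fin 2) : (gT e e' i).map f = gT (f e) (f e') i := by
  rw [gT, gT]
  split_ifs <;> exact gq_map f _

/-- base change of the root -/
def Rt.map {m : ℕ} {e : A} (r : Rt m e) : Rt m (f e) where
  z k := PowerSeries.map f (r.z k)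
  zero := by rw [r.zero, map_one]
  add k l := by rw [r.add, map_mul]
  top := by rw [r.top, map_add, map_one, psi_map, gq_map]
  c0 k := by rw [coeff_map, r.c0, map_one]

theorem bs_map {m : ℕ} {e : A} (r : Rt m e) (k : ℤ) :
    PowerSeries.map f (bs r k) = bs (r.map f) k := by
  rw [bs, bs, map_mul, rec_map, gq_map]
  rfl

end map

end Pool.Agent.LK
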