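import Pool.Agent.helper96.LK.DefsM

/-!
# Project lk: (MP_940ffa_an, `Ĥ_n ≥ n² + 3n - 50`), analytic part: statements

RULES.  File `Pool/Agent/<seat>/LK/XX.lean`, `import Pool.Agent.helper96.LK.SpecM`,
`namespace Pool.Agent.LK`, `open PowerSeries Filter`, `open Pool.Agent.helper59.LC
Pool.Agent.helper59.LD`, theorem `XX (h : YY_stmt) ... : XX_stmt` (any OTHER statement of this file
or of `SpecH` may be a hypothesis, except circularly), auxiliary lemmas prefixed `XX_`.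
The library `Pool/Agent/helper59/LD` (files `Form, Form2, Sol, Deg, Vf, Sig, LowD`, and
`LC/Formal`) has the formal Melnikov coefficients `MM`, the solution `xy`, `ev2`, `emb`, `tc`,
`psi`, `rec'`, `csw`, `TD`, `UU`, ... and many lemmas; read `Form.lean` and `Form2.lean` first
(about 10 minutes to build the library the first time).  `D = X d/dX`.  Write `q = psi (gq e)`,
`z = 1 + q`, `F(q) = (1 + q)(q + (1 - e)/2 q²)`; `X q' = F(q)` (`isPsi_psi`, `aeval_FF`).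
-/

open PowerSeries Filter

noncomputable section

namespace Pool.Agent.LK

open Pool.Agent.helper59.LC Pool.Agent.helper59.LD

/-- **ROOT** existence.  Proof: for `κ : ℚ` and a series `γ` with zero constant term there is exactly
one series `y` with `coeff 0 y = 1` and `D y = κ γ y` (recursion
`n y_n = κ Σ_{i<n} γ_{n-i} y_i`; `A` is a `ℚ`-algebra).  Take `γ = q + (1-e)/2 q²`: `1 + q` is the
solution for `κ = 1` (`D q = F(q) = γ (1 + q)`).  `z k` := the solution for `κ = k/m`; products of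
solutions are solutions, so `z (k + l) = z k * z l`, `z 0 = 1`, `z m = 1 + q` by uniqueness.
(Alternative: binomial series and substitution, if Mathlib has them.) -/
def ROOT_stmt : Prop :=
  ∀ (A : Type) [CommRing A] [Algebra ℚ A] (m : ℕ) (e : A), 1 ≤ m → Nonempty (Rt m e)

/-- **BI** the two identities.  Logarithmic derivative: `d k := D (z k) * z (-k)` satisfies
`d (k+l) = d k + d l`, so `d k = k d 1`, `m d 1 = d m = F(q)/z = q + (1-e)/2 q²`, so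
`m D(z k) = k z_k (q + (1-e)/2 q²)`.  `D(rec') = rec' (1 - F'(q))` (differentiate `X q' = F(q)`),
`F'(q) = 1 + (3-e) q + 3/2 (1-e) q²`, so
`m D(bs k) = bs k ((k+m)(q + (1-e)/2 q²) + m (1 - F'(q)))`.  And
`X z_k = X q' rec' z_k = F(q) rec' z_k = (q + (1-e)/2 q²) bs k`.  Adding:
`(2m-k) X z_k + m D(bs k) = m e q bs k = m e (bs (k+m) - bs k)`,
`(m-k) X z_k + m D(bs k) = m (e-1)/2 (2q + q²) bs k = m (e-1)/2 (bs (k+2m) - bs k)`;
take the coefficient of index `j + 1`. -/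
def BI_stmt : Prop :=
  ∀ (A : Type) [CommRing A] [Algebra ℚ A] (m : ℕ) (e : A) (r : Rt m e), 1 ≤ m →
    ∀ (k : ℤ) (j : ℕ),
    ((2 * m - k : ℤ) : A) * coeff j (r.z k) + m * (j + 1) * coeff (j + 1) (bs r k) =
      e * m * (coeff (j + 1) (bs r (k + m)) - coeff (j + 1) (bs r k)) ∧
    ((m - k : ℤ) : A) * coeff j (r.z k) + m * (j + 1) * coeff (j + 1) (bs r k) =
      m * (qc A (1 / 2) * (e - 1)) * (coeff (j + 1) (bs r (k + 2 * m)) - coeff (j + 1) (bs r k))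

/-- **BAS** the values at `e = 0` and `e = 1`.  `e = 0`: `T = z² (1 - 2X)` satisfies
`D T = z² (T - 1)`, `T - 1 = O(X²)`, hence `T = 1` (compare coefficients: `(n - 1) t_n` is a
combination of lower ones).  So `q + q²/2 = (z² - 1)/2 = X z²`, `F' = 1 + 3q + 3/2 q²`,
`m D(bs k) = (k - 2m) X z² bs k` (see `BI`), i.e. `m (1-2X) D(bs k) = (k-2m) X bs k`: the recursion of
`(1-2X)^(1-k/(2m))`.  `e = 1`: `T = z (1 - X)` satisfies `D T = z (T - 1)`, so `T = 1`, `q = X z`,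
`F' = 1 + 2q`, `m D(bs k) = (k - m) q bs k`, `m (1-X) D(bs k) = (k-m) X bs k`.  `coeff 0 (bs k) = 1`.
(The needed formulas of `BI` have to be reproved or `BI_` lemmas imported.) -/
def BAS_stmt : Prop :=
  ∀ m : ℕ, 1 ≤ m →
    (∀ (r : Rt m (0 : ℂ)) (k : ℤ) (j : ℕ),
      coeff j (bs r k) = (((-2) ^ j * ch (1 - (k : ℚ) / (2 * m)) j : ℚ) : ℂ)) ∧
    ∀ (r : Rt m (1 : ℂ)) (k : ℤ) (j : ℕ),
      coeff j (bs r k) = (((-1) ^ j * ch (1 - (k : ℚ) / m) j : ℚ) : ℂ)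

/-- **LOW** With `s = x - 1`, `t = y - 1` (combinations of `X₀, X₁`): `a s + t = X₀`,
`(1+s)^a (1+t) - 1 - a s - t = a s t + s² Q(s) (1 + t)`; `Low.add, Low.mul_left, low_XX`.
Jacobian: `∂₀ x = a/Δ`, `∂₁ x = -1/Δ`, ...: `∂₀P₀ = x^(a-1)(a² y - x)/Δ`, `∂₁P₀ = a x^(a-1)(x-y)/Δ`,
`∂₁P₁ = y^(a-1)(a² x - y)/Δ`, `∂₀P₁ = a y^(a-1)(y-x)/Δ`,
`(a² y - x)(a² x - y) + a² (x-y)² = Δ² x y`. -/
def LOW_stmt : Prop :=
  ∀ (A : Type) [CommRing A] [Algebra ℚ A] (a : ℕ), 2 ≤ a →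
    (∀ i, Low (pT A a i)) ∧ Jac (pT A a) = den A a ∧
    MvPolynomial.pderiv 0 (PP (pT A a) 0) = MvPolynomial.C (qc A (1 / ((a : ℚ) ^ 2 - 1))) *
      (xP A a ^ (a - 1) * (MvPolynomial.C ((a : A) ^ 2) * yP A a - xP A a)) ∧
    MvPolynomial.pderiv 1 (PP (pT A a) 0) = MvPolynomial.C (qc A (1 / ((a : ℚ) ^ 2 - 1))) *
      (MvPolynomial.C (a : A) * xP A a ^ (a - 1) * (xP A a - yP A a)) ∧
    MvPolynomial.pderiv 0 (PP (pT A a) 1) = MvPolynomial.C (qc A (1 / ((a : ℚ) ^ 2 - 1))) *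
      (MvPolynomial.C (a : A) * yP A a ^ (a - 1) * (yP A a - xP A a)) ∧
    MvPolynomial.pderiv 1 (PP (pT A a) 1) = MvPolynomial.C (qc A (1 / ((a : ℚ) ^ 2 - 1))) *
      (yP A a ^ (a - 1) * (MvPolynomial.C ((a : A) ^ 2) * xP A a - yP A a))

/-- **CSW** reality and degrees (`csw` exchanges `X 0, X 1` and conjugates; `TD`: total degree at
most; the degree of `hh` from `PTS`: `x^I y^(J-1)` has degree `I + J - 1 ≤ 2a + 3 + dl`). -/
def CSW_stmt : Prop :=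
  (∀ a : ℕ, (∀ i, csw (pT ℂ a i) = pT ℂ a (i + 1)) ∧ csw (den ℂ a) = den ℂ a ∧
    MvPolynomial.constantCoeff (den ℂ a) = 1 ∧ (∀ i, TD (PP (pT ℂ a) i) (a + 1)) ∧
    TD (den ℂ a) (2 * a)) ∧
  ∀ a dl : ℕ, 11 ≤ a → dl ≤ 1 → ∀ i t, TD (hh ℂ a dl i t) (2 * a + 3 + dl)

/-- **UV** `F_e(P) = -1/2 z f̂_e(z)` with `z = 1 + P`, the derivatives from `LOW`:
`UU = ∂₁P₁ F_e(P₀) + ∂₁P₀ F_{e'}(P₁)`. -/
def UV_stmt : Prop :=
  ∀ (A : Type) [CommRing A] [Algebra ℚ A] (a : ℕ) (e e' : A), 2 ≤ a →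
    UU (pT A a) (gT e e') = den A a * VV a e e'

/-- **VD** degree.  Upper bound: degrees of products.  Lower bound: the substitution
`dg : X₀, X₁ ↦ X` (`dg_le`): `x = y = 1 + X/(a+1) =: ξ`,
`dg VV = c (a² - 1) ξ (1 - ξ^(2a+2) + e (1 - ξ^(a+1))²)`, `c = -1/(2Δ)`, leading coefficient
`c (a² - 1)(e - 1)/(a+1)^(2a+3) ≠ 0`. -/
def VD_stmt : Prop :=
  ∀ (a : ℕ) (e e' : ℂ), 2 ≤ a → e ≠ 1 → (VV a e e').totalDegree = 2 * a + 3

/-- **SOL** the formal solution.  Let `ξ, η` be the right hand sides, `Y₀ = a (ξ-1) + (η-1)`,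
`Y₁ = (ξ-1) + a (η-1)` (constants as `cc`); `ev2 Y (xP) = ξ`, `ev2 Y (yP) = η`;
`ξ^a η = emb 1 (z m) = 1 + emb 1 (psi (gq e))`, `ξ η^a = 1 + emb (-1) (psi (gq e'))` (`m = a² - 1`);
so `Y` is a solution in the sense of `IsSol`; uniqueness `(isSol_xy ..).unique`. -/
def SOL_stmt : Prop :=
  ∀ (A : Type) [CommRing A] [Algebra ℚ A] (a : ℕ) (e e' : A), 2 ≤ a →
    ∀ (r : Rt (a ^ 2 - 1) e) (r' : Rt (a ^ 2 - 1) e'),
    ev2 (xy (pT A a) (gT e e')) (xP A a) = emb 1 (r.z a) * emb (-1) (r'.z (-1)) ∧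
    ev2 (xy (pT A a) (gT e e')) (yP A a) = emb 1 (r.z (-1)) * emb (-1) (r'.z a)

/-- **MXY** the Melnikov coefficients of `x^i y^j ∂_x` and `x^i y^j ∂_y` (times `den`).
`Σ_j ∂_jP_0 fx_j = a x^i y^j x^(a-1) y`, that is `x · Σ = a z x^i y^j`; `y^... `: by `LOW`,
`x * Σ_j ∂_j P_0 fx_j = a z x^i y^j`, `x * Σ_j ∂_j P_1 fx_j = w x^i y^j`,
`y * Σ_j ∂_j P_0 fy_j = z x^i y^j`, `y * Σ_j ∂_j P_1 fy_j = a w x^i y^j` (for `i = 0` or `j = 0`
too).  `ev2` of `Jac = den` cancels the factor `den` (`inv1_mul`).  By `SOL`,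
`ev2 (x^(i-1) y^j) = emb 1 (z (a(i-1) - j)) * emb (-1) (z' (a j - (i-1)))` (`ev2 x` is a unit:
`r.z k * r.z (-k) = 1`).  Then `tc_emb_mul` with `e = 1` for the component `0`
(`emb 1 (rec' ψ * z m * z κ) * emb (-1) (z' κ')`) and `e = -1` for the component `1`. -/
def MXY_stmt : Prop :=
  ∀ (A : Type) [CommRing A] [Algebra ℚ A] (a : ℕ) (e e' : A), 2 ≤ a →
    ∀ (r : Rt (a ^ 2 - 1) e) (r' : Rt (a ^ 2 - 1) e') (i j k : ℕ),
    MM (pT A a) (gT e e') 1 (fun t => den A a * fx A a i j t) k =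
      a * (coeff (k + 1) (bs r (a * (i - 1) - j)) * coeff k (r'.z (a * j - (i - 1)))) +
        coeff k (r.z (a * (i - 1) - j)) * coeff (k + 1) (bs r' (a * j - (i - 1))) ∧
    MM (pT A a) (gT e e') 1 (fun t => den A a * fy A a i j t) k =
      coeff (k + 1) (bs r (a * i - (j - 1))) * coeff k (r'.z (a * (j - 1) - i)) +
        a * (coeff k (r.z (a * i - (j - 1))) * coeff (k + 1) (bs r' (a * (j - 1) - i)))

/-- `m μ` -/
def ka (a : ℕ) (Q : Pt) : ℤ := a * (Q.1 - 1) - (Q.2 - 1)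

/-- `m ν` -/
def kb (a : ℕ) (Q : Pt) : ℤ := a * (Q.2 - 1) - (Q.1 - 1)

section
variable {A : Type} [CommRing A] [Algebra ℚ A] {m : ℕ} {e e' : A}

/-- the values for type `A` -/
def wA (a : ℕ) (r : Rt m e) (r' : Rt m e') (Q : Pt) (k : ℕ) : A :=
  (if 1 ≤ Q.1 ∧ 1 ≤ Q.2 then 1 else if 1 ≤ Q.2 then (a : A) else 1) *
    (coeff (k + 1) (bs r (ka a Q)) * coeff k (r'.z (kb a Q))) +
  (if 1 ≤ Q.1 ∧ 1 ≤ Q.2 then 0 else if 1 ≤ Q.2 then 1 else (a : A)) *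
    (coeff k (r.z (ka a Q)) * coeff (k + 1) (bs r' (kb a Q)))

/-- the values for type `B` (divided by the parameter) -/
def wB (a : ℕ) (r : Rt m e) (r' : Rt m e') (Q : Pt) (k : ℕ) : A :=
  coeff (k + 1) (bs r (ka a Q)) * coeff (k + 1) (bs r' (kb a Q + 2 * m)) -
    coeff (k + 1) (bs r (ka a Q + m)) * coeff (k + 1) (bs r' (kb a Q))

/-- the values of the family -/
def wP (a dl : ℕ) (r : Rt m e) (r' : Rt m e') (i : Ix a dl) (k : ℕ) : A :=
  match i with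
  | none => if k = 0 then a * coeff 1 (bs r 0) + coeff 1 (bs r' 0) else 0
  | some (Sum.inl u) => wA a r r' (shift a u.1.1 u.1.2) k
  | some (Sum.inr u) => wB a r r' (shift a u.1.1 u.1.2) k

/-- the extra factor of the family -/
def fP (e : A) {a dl : ℕ} (i : Ix a dl) : A :=
  match i with
  | some (Sum.inr _) => e
  | _ => 1

end

/-- **WM** the values of the family.  `none`: `MXY` with `i = 1, j = 0`, `z 0 = 1`.  Type `A`: for
interior `Q` the combination `c₁ fx(I, J-1) + c₂ fy(I-1, J)` has value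
`(a c₁ + c₂) bs z' + (c₁ + a c₂) z bs'` with the same arguments `ka, kb` (`MM_add, MM_smul`), and
`(a c₁ + c₂, c₁ + a c₂) = (1, 0)`; type `B`: it is `(1 - ν, -(2 - μ))` with `m μ = ka`, `m ν = kb`,
and by `BI` (first identity for `r`, second for `r'`, where `(e' - 1)/2 = e`), `j = k + 1`:
`(2-μ) z_k = -j b + e (b₊ - b)`, `(1-ν) z'_k = -j b' + e (b'₊₊ - b')`, so the value is
`b (-j b' + e (b'₊₊ - b')) - b' (-j b + e (b₊ - b)) = e (b b'₊₊ - b₊ b')`.  The points of the family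
have the required positions by `PTS`. -/
def WM_stmt : Prop :=
  ∀ (A : Type) [CommRing A] [Algebra ℚ A] (a dl : ℕ) (e : A), 11 ≤ a → dl ≤ 1 →
    ∀ (r : Rt (a ^ 2 - 1) e) (r' : Rt (a ^ 2 - 1) (1 + 2 * e)) (i : Ix a dl) (k : ℕ),
    MM (pT A a) (gT e (1 + 2 * e)) 1 (fun t => den A a * hh A a dl i t) k =
      fP e i * wP a dl r r' i k

/-- the constants of the type `A` values at the base point -/
def cQ (a : ℕ) (Q : Pt) : ℚ :=
  if 1 ≤ Q.1 ∧ 1 ≤ Q.2 then 1 / (1 - nu a Q)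
  else if 1 ≤ Q.2 then (2 * a + 2) / ((1 - nu a Q) * (2 - mu a Q))
  else (a + 3) / ((1 - nu a Q) * (2 - mu a Q))

/-- the values of the family at the base point -/
def w0 (a dl : ℕ) (i : Ix a dl) (k : ℕ) : ℂ :=
  match i with
  | none => if k = 0 then -(2 * (a : ℂ) + 1) else 0
  | some (Sum.inl u) =>
    ((-(2 ^ (k + 1) * cQ a (shift a u.1.1 u.1.2)) *
      (((k : ℚ) + 1) * sg a (shift a u.1.1 u.1.2) (k + 1)) : ℚ) : ℂ)
  | some (Sum.inr u) =>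
    ((2 ^ (k + 1) * (sg a (shift a u.1.1 (u.1.2.1, u.1.2.2 + 2)) (k + 1) -
      sg a (shift a u.1.1 (u.1.2.1 + 1, u.1.2.2)) (k + 1)) : ℚ) : ℂ)

/-- **WB** values at the base point `e = 0`, `e' = 1`.  By `BI` with `e = 0` resp. `e' = 1`:
`(2-μ) z_k = -(k+1) b`, `(1-ν) z'_k = -(k+1) b'`, and `BAS`: with `j = k + 1`,
`b b' = 2^j sg a Q j` (`ka/(2m) = μ/2`, `kb/m = ν`).  Type `A` interior: `b z'_k = -j b b'/(1-ν)`;
`I = 0`: `a b z' + z b' = -j b b' (a (2-μ) + (1-ν))/((1-ν)(2-μ))` and `a μ + ν = I - 1 = -1`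
(`pt_eq`), so the numerator is `2a + 2`; `J = 0`: numerator `(2-μ) + a (1-ν) = a + 3` (`μ + a ν = -1`).
`1 - ν ≠ 0`, `2 - μ ≠ 0` by `NI` (with `mem_UA`).  Type `B`: `BAS` and `mu_shift, nu_shift`.
`none`: `coeff 1 (bs r 0) = -2`, `coeff 1 (bs r' 0) = -1`. -/
def WB_stmt : Prop :=
  ∀ a dl : ℕ, 11 ≤ a → dl ≤ 1 → ∀ (r : Rt (a ^ 2 - 1) (0 : ℂ)) (r' : Rt (a ^ 2 - 1) (1 : ℂ))
    (i : Ix a dl) (k : ℕ), wP a dl r r' i k = w0 a dl i k

/-- **Z0** independence at the base point.  A relation `Σ_i c_i w0 i k = 0` (`k ≥ 0`) gives for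
`j = k + 1 ≥ 2`, dividing by `2^j`, the hypothesis of `INJ` with `A u = -c_u cQ`, `B u = c_u`
(functions on `Pt × Pt`, zero outside `UA`, `UB`); `cQ ≠ 0` (`NI` for the denominators; nonzero
numerators).  So all `c_u = 0`, then `k = 0` gives `c_none (2a+1) = 0`.
(`Fintype.linearIndependent_iff`, `Fintype.sum_option`, `Fintype.sum_sum_type`,
`Finset.sum_coe_sort` / `Finset.sum_attach`.) -/
def Z0_stmt : Prop :=
  ∀ a dl : ℕ, 11 ≤ a → dl ≤ 1 → LinearIndependent ℂ (w0 a dl)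

/-- **Z1** independence for generic parameter.  Take `A = ℂ[s]`, `e = X`, `ROOT` gives
`r : Rt m X`, `r' : Rt m (1 + 2 X)`.  The family `wP a dl r r' i k : ℂ[s]` at `s = 0` is `w0`
(`Rt.map` with `evalRingHom 0`, `bs_map`, `WB`; the structures `Rt m (f X)` and `Rt m 0` are to be
identified by rewriting `f X = 0`), so `at_indep` (`LD/LowD.lean`) with `Z0` gives `D`.  For
`D(s) ≠ 0`, `s ≠ 0`: `MM ... = fP s i * (wP ... i k).eval s` (`WM` over `ℂ[s]` and `MM_map`, or `WM`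
over `ℂ` with the mapped roots), and `fP s i ≠ 0`: `LinearIndependent.units_smul`.  Take `D * X`. -/
def Z1_stmt : Prop :=
  ∀ a dl : ℕ, 11 ≤ a → dl ≤ 1 → ∃ D : Polynomial ℂ, D ≠ 0 ∧ ∀ s, D.eval s ≠ 0 →
    LinearIndependent ℂ fun i k =>
      MM (pT ℂ a) (gT s (1 + 2 * s)) 1 (fun t => den ℂ a * hh ℂ a dl i t) k

/-- **Z2** a real point.  Choose `s` with `D(s) ≠ 0`, `s ≠ 1`.  `sigma_stage` (`LD/Sig.lean`, with
`M = 0`, `r = dl`, `Low` from `LOW`) gives `D₂ ≠ 0` such that for `D₂(t) ≠ 0` the family is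
independent for `pσ (pT ℂ a) t = pT ℂ a` (`CSW`: both arguments of the mixture are equal),
`gσ (gT s (1 + 2s)) t = gT e_t e'_t`, `e_t = (s + 1 + 2 s̄)/2 + t (s - 1 - 2 s̄)/(2i)` (`gq` is affine in
`e`, `cP (gq e) = gq ē`), `e'_t = conj e_t` for real `t` (`gσ_real`, or direct computation).  `e_t = s`
at `t = i`, so `e_t - 1` is a nonzero polynomial in `t`; choose a real `t` with
`D₂(t) (e_t - 1) ≠ 0` (as in `exists_RPt` in `LD/Fin1.lean`). -/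
def Z2_stmt : Prop :=
  ∀ a dl : ℕ, 11 ≤ a → dl ≤ 1 → ∃ e : ℂ, e ≠ 1 ∧ ∃ t : ℝ,
    LinearIndependent ℂ fun i k =>
      MM (pT ℂ a) (gT e (starRingEnd ℂ e)) (lamS dl (t : ℂ)) (fun s => den ℂ a * hh ℂ a dl i s) k

end Pool.Agent.LK
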