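import Pool.Agent.helper96.LK.SpecM

/-!
# Project lk: (MP_940ffa_an, `Ĥ_n ≥ n² + 3n - 50`), real part: statements

RULES as in `SpecM`.  These modules adapt `Pool/Agent/helper59/LD/RealG.lean` (`real_family`),
`AE2.lean` (`extract`), `Mel2.lean`, `Mel3.lean` (`indep_local`, `complex_cycles2`), `TC.lean`
(`time_change`), `FT.lean`.
-/

open PowerSeries Filter Topology Set

noncomputable section

namespace Pool.Agent.LK

open Pool.Agent.helper59.LC Pool.Agent.helper59.LD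

/-- data of a pulled back centre with the common factor `den` -/
structure QPt (n K : ℕ) where
  /-- degree of the uncancelled field -/
  N : ℕ
  /-- the pull-back data (without perturbations) -/
  R : RPt N 0
  /-- the common factor -/
  dn : MvPolynomial (Fin 2) ℂ
  /-- the field divided by the common factor -/
  W : MvPolynomial (Fin 2) ℂ
  dreal : csw dn = dn
  dconst : MvPolynomial.constantCoeff dn = 1
  hW : dn * W = W0 R
  deg : W.totalDegree = n
  /-- the perturbations -/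
  h : Fin (K + 1) → Fin 2 → MvPolynomial (Fin 2) ℂ
  hdeg : ∀ i j, TD (h i j) n
  ind : LinearIndependent ℂ fun i k => MM R.p R.g R.lam (fun j => dn * h i j) k

/-- the perturbed field (divided by the common factor) -/
def QPt.Wq {n K : ℕ} (Q : QPt n K) (H : MvPolynomial (Fin 2) ℂ) (ε : ℝ) :
    MvPolynomial (Fin 2) ℂ := Q.W + MvPolynomial.C (ε : ℂ) * H

/-- **RA** nonvanishing near zero.  As `extract` (`LD/AE2.lean`): let `n₀` be the least `n` with
`((coeff n Φ).coeff 1).re ≠ 0`; with `N = n₀ + 1` in place of `n + 1` the proof of `extract` gives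
`|(∫ ..).re - 2π q(r)| ≤ 2π C r^(n₀+1)` for a real polynomial `q` with `q.coeff j = 0` for `j < n₀`,
`q.coeff n₀ ≠ 0`, so `(∫ ..).re / r^n₀ → 2π q.coeff n₀ ≠ 0`. -/
def RA_stmt : Prop :=
  ∀ (f : ℝ × ℝ → ℂ) (Φ : (LaurentPolynomial ℂ)⟦X⟧), (∀ K, Ex K f Φ) →
    (∀ᶠ r in 𝓝[>] (0 : ℝ), Continuous fun θ => f (r, θ)) →
    (∃ n, ((coeff n Φ).coeff 1).re ≠ 0) →
    ∀ᶠ r in 𝓝[>] (0 : ℝ), (∫ θ in (0 : ℝ)..(2 * Real.pi),
      Complex.exp (-(θ * Complex.I)) * f (r, θ)).re ≠ 0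

/-- **RB** the real family.  As `real_family` (`LD/RealG.lean`), simpler (no distinguished member):
`Hb (fun j => dn * h j) b = dn * Hb h b` (`csw dn = dn`), `MM_Hb`, `conj_MM_pr`; the real sequences
`ρ (i, b) k = (MMp .. (pr (dn * Hb (h i) b)) 0 k).re` span over `ℂ` (embedded) a space containing the
`K + 1` independent sequences `MM .. (dn * h i)`, so a maximal independent subfamily over `ℝ` has at
least `K + 1` members. -/
def RB_stmt : Prop :=
  ∀ (n K : ℕ) (Q : QPt n K), ∃ H : Fin (K + 1) → MvPolynomial (Fin 2) ℂ, (∀ i, TD (H i) n) ∧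
    LinearIndependent ℝ (fun i k => (MMp Q.R.p Q.R.g Q.R.lam (pr (Q.dn * H i)) 0 k).re)

/-- **RC** cycles of the uncancelled field.  As `complex_cycles2` (`LD/Mel3.lean`), with the family
`G i = dn * H i` of `RB`.  `MI_Hv`, `Sc_Hv`, `G2_Hv`, `AA_Hv` are stated for `Fin (K+1)` with the `K` of
`R`; here `R : RPt N 0`, so copy them for families over `Fin (K + 1)` with arbitrary `K` (the proofs
do not change); `ex_G2`, `G2_ann`, `G2_contDiff`, `int_AA_re`, `int_AA_deriv`, `exists_loc` apply as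
they are.  Put `i₀ = 0`: the sequence of `G 0` is not zero (independence), `tc_PhH`, so by `RA`
(`f q = G2 R e (G 0) (wF q)`, `Φ = PhH R (G 0)`) `MI (G2 R e (G 0)) s ≠ 0` for `0 < s < r₁`, some
`r₁ ≤ r`.  The functions `φ i s = if i = 0 then 1 else MI (G2 R e (G i)) s / MI (G2 R e (G 0)) s` are
independent on `(0, r₁)` (as in `indep_local`), differentiable; `exists_zeros`; the rest is the same
with `2πs` replaced by `MI (G2 R e (G 0)) s` (product rule at a zero of the other factor) and `r` by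
`r₁` (`cycles_of_zeros`; the conclusion `e '' ball 0 r₁ ⊆ U`).  `G (Hv)`: the perturbation is
`Hv G v = dn * Hv H v`. -/
def RC_stmt : Prop :=
  ∀ (n K : ℕ) (Q : QPt n K) (U : Set ℂ), U ∈ 𝓝 (0 : ℂ) →
    ∃ H : MvPolynomial (Fin 2) ℂ, TD H n ∧ ∃ ε₀ : ℝ, 0 < ε₀ ∧ ∀ ε, 0 < ε → ε < ε₀ →
      ∃ c : Fin K → ℝ → ℂ, (Function.Injective fun j => range (c j)) ∧
        ∀ j, IsPer (Zf Q.R (Q.dn * H) ε) (c j) ∧ (∃ t, c j t ≠ c j 0) ∧ range (c j) ⊆ U ∧
          ∃ O : Set ℂ, IsOpen O ∧ range (c j) ⊆ O ∧ ∀ c', IsPer (Zf Q.R (Q.dn * H) ε) c' →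
            range c' ⊆ O → range c' = range (c j)

/-- **RD** cycles of the cancelled field.  `Wp R (dn * H) ε = dn * Wq H ε` (`hW`), so
`Zf R (dn * H) ε z = Ez dn z * Ez (Wq H ε) z`; `Ez dn z` is real (`Ez_csw`, `dreal`) and positive for
`z` in an open neighbourhood `U₀` of `0` (`dconst`, continuity).  Apply `RC` with `U ∩ U₀`.  For a
periodic orbit `c` of `Zf` inside `U₀`, `time_change` (`LD/TC.lean`, `τ z = (Ez dn z).re⁻¹`) gives a
periodic solution `c ∘ χ` of `Ez (Wq H ε)` with the same range (`χ` surjective); conversely, for a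
periodic solution of `Ez (Wq H ε)` inside `O ∩ U₀` use `τ z = (Ez dn z).re`.  (See the end of the
proof of `cycles_of_zeros` for the same argument.) -/
def RD_stmt : Prop :=
  ∀ (n K : ℕ) (Q : QPt n K) (U : Set ℂ), U ∈ 𝓝 (0 : ℂ) →
    ∃ H : MvPolynomial (Fin 2) ℂ, TD H n ∧ ∃ ε₀ : ℝ, 0 < ε₀ ∧ ∀ ε, 0 < ε → ε < ε₀ →
      ∃ c : Fin K → ℝ → ℂ, (Function.Injective fun j => range (c j)) ∧
        ∀ j, IsPer (Ez (Q.Wq H ε)) (c j) ∧ (∃ t, c j t ≠ c j 0) ∧ range (c j) ⊆ U ∧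
          ∃ O : Set ℂ, IsOpen O ∧ range (c j) ⊆ O ∧ ∀ c', IsPer (Ez (Q.Wq H ε)) c' →
            range c' ⊆ O → range c' = range (c j)

/-- **QP** the data exist.  `p = pT ℂ a`, `g = gT e ē`, `lam = lamS dl t` from `Z2`; `N` the total
degree of `lam * UU p g`, `R : RPt N 0` with `h` empty; `dn = den ℂ a`,
`W = C I * (lamS dl t * VV a e ē)` (`UV`), degree `dl + 2a + 3` (`VD`, `dg_lamS_deg`, `td_lamS`,
`totalDegree_mul_of_isDomain`, as in `exists_RPt`); `N = 2a + n` (`den ≠ 0`; its degree is `2a`: use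
only what is needed: `cdeg`: `td_hF` bounds the degree of `hF` by `2a + 1 + dl`, and `N ≥ n`
since `dn ≠ 0`, `totalDegree_mul_of_isDomain`).  `h = hh ℂ a dl ∘ equiv` with
`Fintype.card (Ix a dl) = card UA + card UB + 1`; degrees by `CSW`. -/
def QP_stmt : Prop :=
  ∀ a dl : ℕ, 11 ≤ a → dl ≤ 1 → Nonempty (QPt (2 * a + 3 + dl)
    ((UA (a : ℤ) (dl : ℤ)).card + (UB (a : ℤ) (dl : ℤ)).card))

/-- **QW** the linear part of `W`: from `dn * W = W0 R` (`const_W0`, `D1_W0`, `D1_mul`, `dconst`);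
then `D1_ff` (as `D1_fW0`), `totalDegree_ff` (as `deg_W0`, `td_Wp`). -/
def QW_stmt : Prop :=
  ∀ (n K : ℕ) (Q : QPt n K), MvPolynomial.constantCoeff Q.W = 0 ∧
    D1 0 (ff ZZ Q.W) = Complex.I ∧ D1 1 (ff ZZ Q.W) = -1 ∧ (ff ZZ Q.W).totalDegree = n ∧
    ∀ (H : MvPolynomial (Fin 2) ℂ) (ε : ℝ), TD H n → (ff ZZ (Q.Wq H ε)).totalDegree ≤ n

end Pool.Agent.LK
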